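import Pool.Agent.Helper54.PT.DefsD

set_option autoImplicit false

namespace Pool.Agent.Helper54.PT

open Polynomial Finset Pool.Agent.Helper47.BSD

variable {F : Type} [Field F] {ℓ : ℕ} [Fact ℓ.Prime] {ι : Type} [Fintype ι]
  [DecidableEq ι] {σ : Type} [Fintype σ] [DecidableEq σ] {a : ι → ℕ} {e : ι → F[X]}
  {R : σ → Prm F} {i₁ i₂ : σ → ι} {N : ℕ} {lg : F → ZMod ℓ}

namespace C15

theorem lg_one (hlg : IsLog ℓ lg) : lg 1 = 0 := by
  have h := hlg.1 1 1 one_ne_zero one_ne_zero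
  rw [mul_one] at h
  simpa using h

theorem lg_prod (hlg : IsLog ℓ lg) {κ : Type} (s : Finset κ) (f : κ → F) (hf : ∀ i, f i ≠ 0) :
    lg (∏ i ∈ s, f i) = ∑ i ∈ s, lg (f i) := by
  classical
  induction s using Finset.induction_on with
  | empty => simpa using lg_one hlg
  | insert x s hx ih =>
    rw [Finset.prod_insert hx, Finset.sum_insert hx, ← ih,
      hlg.1 _ _ (hf x) (Finset.prod_ne_zero_iff.2 fun i _ => hf i)]

theorem lg_pow (hlg : IsLog ℓ lg) (x : F) (hx : x ≠ 0) (n : ℕ) : lg (x ^ n) = n * lg x := by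
  induction n with
  | zero => simpa using lg_one hlg
  | succ n ih =>
    rw [pow_succ, hlg.1 _ _ (pow_ne_zero _ hx) hx, ih]
    push_cast
    ring

end C15

/-- C15 with the inputs as hypotheses. -/
theorem selmer_rel_aux
    (c3a : ∀ {K : Type} [Field K] {e : ι → K} {d : ι → Kˣ}, d ∈ descentGroup ℓ a e →
      ∃ y : K, ∏ i, (d i : K) ^ a i = y ^ ℓ)
    (ordK_mul : ∀ (Q : Prm F) {x y : RatFunc F}, x ≠ 0 → y ≠ 0 →
      ordK Q (x * y) = ordK Q x + ordK Q y)
    (lcK_ne_zero : ∀ {x : RatFunc F}, x ≠ 0 → lcK x ≠ 0)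
    (lcK_mul : ∀ {x y : RatFunc F}, x ≠ 0 → y ≠ 0 → lcK (x * y) = lcK x * lcK y)
    (exists_absP : ∀ P : Prm F, ∃ v : AbsoluteValue (RatFunc F) ℝ, v.IsNontrivial ∧ IsAbsP P v)
    (exists_absInf : ∃ v : AbsoluteValue (RatFunc F) ℝ, v.IsNontrivial ∧ IsAbsInf v)
    (class_of_pow_absP : ∀ (P : Prm F) (v : AbsoluteValue (RatFunc F) ℝ), IsAbsP P v →
      ∀ {x : RatFunc F}, x ≠ 0 →
      (∃ y : v.Completion, algebraMap (RatFunc F) v.Completion x = y ^ ℓ) →
      (ℓ : ℤ) ∣ ordK P x ∧ rsK lg P x = 0)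
    (class_of_pow_absInf : ∀ (v : AbsoluteValue (RatFunc F) ℝ), IsAbsInf v →
      ∀ {x : RatFunc F}, x ≠ 0 →
      (∃ y : v.Completion, algebraMap (RatFunc F) v.Completion x = y ^ ℓ) →
      (ℓ : ℤ) ∣ x.intDegree ∧ lg (lcK x) = 0)
    (hlg : IsLog ℓ lg) (D : Finset (Prm F))
    (d : ι → (RatFunc F)ˣ) (hd : d ∈ selmerSet ℓ a (tw e D)) :
    (∀ Q : Prm F, ∑ i, (a i : ZMod ℓ) * (ordK Q (d i) : ZMod ℓ) = 0) ∧
      ∑ i, (a i : ZMod ℓ) * lg (lcK (d i : RatFunc F)) = 0 := by
  classical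
  -- the product is an `ℓ`-th power in every completion
  have hpow : ∀ v : AbsoluteValue (RatFunc F) ℝ, v.IsNontrivial →
      ∃ y : v.Completion, algebraMap (RatFunc F) v.Completion
        (∏ i, (d i : RatFunc F) ^ a i) = y ^ ℓ := by
    intro v hv
    obtain ⟨y, hy⟩ := c3a (hd v hv)
    refine ⟨y, ?_⟩
    rw [← hy, map_prod]
    refine Finset.prod_congr rfl fun i _ => ?_
    rw [map_pow]
    rfl
  have hne : ∏ i, (d i : RatFunc F) ^ a i ≠ 0 :=
    Finset.prod_ne_zero_iff.2 fun i _ => pow_ne_zero _ (Units.ne_zero _)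
  have ordK_one : ∀ Q : Prm F, ordK Q (1 : RatFunc F) = 0 := by
    intro Q
    have h := ordK_mul Q (one_ne_zero (α := RatFunc F)) (one_ne_zero (α := RatFunc F))
    rw [mul_one] at h
    omega
  have lcK_one : lcK (1 : RatFunc F) = 1 := by
    simp [lcK]
  have hord_pow : ∀ (Q : Prm F) {x : RatFunc F} (_ : x ≠ 0) (n : ℕ),
      ordK Q (x ^ n) = n * ordK Q x := by
    intro Q x hx n
    induction n with
    | zero => simpa using ordK_one Q
    | succ n ih =>
      rw [pow_succ, ordK_mul Q (pow_ne_zero _ hx) hx, ih]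
      push_cast
      ring
  have hlc_pow : ∀ {x : RatFunc F} (_ : x ≠ 0) (n : ℕ), lcK (x ^ n) = lcK x ^ n := by
    intro x hx n
    induction n with
    | zero => simpa using lcK_one
    | succ n ih => rw [pow_succ, lcK_mul (pow_ne_zero _ hx) hx, ih, pow_succ]
  have hord_prod : ∀ (Q : Prm F) (s : Finset ι),
      ordK Q (∏ i ∈ s, (d i : RatFunc F) ^ a i) = ∑ i ∈ s, a i * ordK Q (d i) := by
    intro Q s
    induction s using Finset.induction_on with
    | empty => simpa using ordK_one Q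
    | insert x s hx ih =>
      rw [Finset.prod_insert hx, Finset.sum_insert hx, ordK_mul Q
        (pow_ne_zero _ (Units.ne_zero _))
        (Finset.prod_ne_zero_iff.2 fun i _ => pow_ne_zero _ (Units.ne_zero _)), ih,
        hord_pow Q (Units.ne_zero _)]
  have hlc_prod : ∀ (s : Finset ι),
      lcK (∏ i ∈ s, (d i : RatFunc F) ^ a i) = ∏ i ∈ s, lcK (d i : RatFunc F) ^ a i := by
    intro s
    induction s using Finset.induction_on with
    | empty => simpa using lcK_one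
    | insert x s hx ih =>
      rw [Finset.prod_insert hx, Finset.prod_insert hx, lcK_mul
        (pow_ne_zero _ (Units.ne_zero _))
        (Finset.prod_ne_zero_iff.2 fun i _ => pow_ne_zero _ (Units.ne_zero _)), ih,
        hlc_pow (Units.ne_zero _)]
  constructor
  · intro Q
    obtain ⟨v, hv, hvP⟩ := exists_absP Q
    have h1 := (class_of_pow_absP Q v hvP hne (hpow v hv)).1
    rw [hord_prod] at h1
    have h2 := (ZMod.intCast_zmod_eq_zero_iff_dvd _ ℓ).2 h1
    rw [← h2]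
    push_cast
    rfl
  · obtain ⟨v, hv, hvI⟩ := exists_absInf
    have h1 := (class_of_pow_absInf v hvI hne (hpow v hv)).2
    rw [hlc_prod, C15.lg_prod hlg _ _
      (fun i => pow_ne_zero _ (lcK_ne_zero (Units.ne_zero _)))] at h1
    rw [← h1]
    exact Finset.sum_congr rfl fun i _ => (C15.lg_pow hlg _ (lcK_ne_zero (Units.ne_zero _)) _).symm

end Pool.Agent.Helper54.PT
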