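import Pool.Agent.Helper54.PT.DefsD

set_option autoImplicit false

namespace Pool.Agent.Helper54.PT

open Polynomial Finset UniqueFactorizationMonoid

variable {F : Type} [Field F] {ℓ : ℕ} [Fact ℓ.Prime] {ι : Type} [Fintype ι]
  [DecidableEq ι] {a : ι → ℕ} {e : ι → F[X]} {N : ℕ}

namespace C14

open Classical in
theorem prod_normFactors {f : F[X]} (hf : f ≠ 0) (hsq : Squarefree f) :
    f = C f.leadingCoeff * ∏ P ∈ (normalizedFactors f).toFinset, P := by
  have h1 : (normalizedFactors f).Nodup :=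
    (squarefree_iff_nodup_normalizedFactors hf).1 hsq
  have h2 := Polynomial.leadingCoeff_mul_prod_normalizedFactors f
  have h3 : ∏ P ∈ (normalizedFactors f).toFinset, P = (normalizedFactors f).prod := by
    rw [Finset.prod_multiset_count]
    refine Finset.prod_congr rfl fun x hx => ?_
    rw [Multiset.count_eq_one_of_mem h1 (Multiset.mem_toFinset.1 hx), pow_one]
  rw [h3]
  exact h2.symm

end C14

/-- C14: the setup exists -/
theorem exists_setup [Finite F] (ha : ∀ i, ¬ ℓ ∣ a i) (hs : ¬ ℓ ∣ ∑ i, a i) (hN : 1 ≤ N)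
    (deg : ∀ i, (e i).natDegree ≤ N) (lead : ∀ i j, i ≠ j → (e i).coeff N ≠ (e j).coeff N)
    (hcop : ∀ i j, i ≠ j → Squarefree (e i - e j))
    (hcop' : ∀ i j m n, i ≠ j → m ≠ n → s(i, j) ≠ s(m, n) → IsCoprime (e i - e j) (e m - e n)) :
    ∃ (σ : Type) (_ : Fintype σ) (_ : DecidableEq σ) (R : σ → Prm F) (i₁ i₂ : σ → ι),
      Setup ℓ a e R i₁ i₂ N := by
  classical
  -- choose representatives of unordered pairs
  have hout : ∀ z : Sym2 ι, ∃ p : ι × ι, s(p.1, p.2) = z := by
    intro z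
    induction z using Sym2.ind with
    | _ x y => exact ⟨(x, y), rfl⟩
  choose o ho using hout
  have hdeg : ∀ i j, i ≠ j → (e i - e j).natDegree = N ∧
      (e i - e j).leadingCoeff = (e i).coeff N - (e j).coeff N ∧ e i - e j ≠ 0 := by
    intro i j hij
    have h1 : (e i - e j).natDegree ≤ N :=
      (natDegree_sub_le _ _).trans (max_le (deg i) (deg j))
    have h2 : (e i - e j).coeff N ≠ 0 := by
      rw [coeff_sub]; exact sub_ne_zero.2 (lead i j hij)
    have h3 : (e i - e j).natDegree = N := le_antisymm h1 (le_natDegree_of_ne_zero h2)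
    refine ⟨h3, ?_, ?_⟩
    · rw [leadingCoeff, h3, coeff_sub]
    · rintro h0
      rw [h0] at h2
      exact h2 (coeff_zero _)
  -- divisibility does not depend on the order
  have hsymm : ∀ (P : F[X]) (i j m n : ι), s(i, j) = s(m, n) → P ∣ e i - e j → P ∣ e m - e n := by
    intro P i j m n h hP
    rcases Sym2.eq_iff.1 h with ⟨rfl, rfl⟩ | ⟨rfl, rfl⟩
    · exact hP
    · rw [← neg_sub]; exact (dvd_neg).2 hP
  let σ : Type := {x : Prm F × Sym2 ι // (o x.2).1 ≠ (o x.2).2 ∧ x.1.1 ∣ e (o x.2).1 - e (o x.2).2}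
  have hfin : Finite σ := by
    have hf : {P : Prm F | P.1.natDegree ≤ N}.Finite :=
      Set.Finite.preimage (f := fun P : Prm F => P.1) (Subtype.val_injective.injOn)
        (finite_natDegree_le F N)
    have hf2 : (({P : Prm F | P.1.natDegree ≤ N} ×ˢ (Set.univ : Set (Sym2 ι)))).Finite :=
      hf.prod Set.finite_univ
    have hf3 : {x : Prm F × Sym2 ι | (o x.2).1 ≠ (o x.2).2 ∧
        x.1.1 ∣ e (o x.2).1 - e (o x.2).2} ⊆
        ({P : Prm F | P.1.natDegree ≤ N} ×ˢ (Set.univ : Set (Sym2 ι))) := ?_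
    · exact (hf2.subset hf3).to_subtype
    rintro ⟨P, z⟩ ⟨h1, h2⟩
    refine ⟨?_, trivial⟩
    have h3 := hdeg _ _ h1
    have h4 := natDegree_le_of_dvd h2 h3.2.2
    rw [h3.1] at h4
    exact h4
  let _ : Fintype σ := Fintype.ofFinite σ
  -- the product formula
  have hprod : ∀ i j, i ≠ j → ∏ r ∈ (univ : Finset σ).filter (fun r => s((o r.1.2).1, (o r.1.2).2) = s(i, j)),
      r.1.1.1 = ∏ P ∈ (normalizedFactors (e i - e j)).toFinset, P := by
    intro i j hij
    have h0 := (hdeg i j hij).2.2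
    refine Finset.prod_bij (fun r _ => r.1.1.1) ?_ ?_ ?_ ?_
    · intro r hr
      have hr2 := (Finset.mem_filter.1 hr).2
      rw [Multiset.mem_toFinset, Polynomial.mem_normalizedFactors_iff h0]
      exact ⟨r.1.1.2.2, r.1.1.2.1, hsymm _ _ _ _ _ hr2 r.2.2⟩
    · intro r hr r' hr' h
      have hr2 := (Finset.mem_filter.1 hr).2
      have hr2' := (Finset.mem_filter.1 hr').2
      rw [ho] at hr2 hr2'
      apply Subtype.ext
      exact Prod.ext (Subtype.ext h) (hr2.trans hr2'.symm)
    · intro P hP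
      rw [Multiset.mem_toFinset, Polynomial.mem_normalizedFactors_iff h0] at hP
      have h1 : s((o s(i, j)).1, (o s(i, j)).2) = s(i, j) := ho _
      have h2 : (o s(i, j)).1 ≠ (o s(i, j)).2 := by
        intro h
        rw [h] at h1
        rcases Sym2.eq_iff.1 h1 with ⟨h3, h4⟩ | ⟨h3, h4⟩
        · exact hij (h3.symm.trans h4)
        · exact hij (h4.symm.trans h3)
      refine ⟨⟨(⟨P, hP.2.1, hP.1⟩, s(i, j)), h2, hsymm _ _ _ _ _ h1.symm hP.2.2⟩, ?_, rfl⟩
      exact Finset.mem_filter.2 ⟨Finset.mem_univ _, ho _⟩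
    · intro r _
      rfl
  have hfact : ∀ i j, i ≠ j → e i - e j = C ((e i).coeff N - (e j).coeff N) *
      ∏ r ∈ (univ : Finset σ).filter (fun r => s((o r.1.2).1, (o r.1.2).2) = s(i, j)), r.1.1.1 := by
    intro i j hij
    rw [hprod i j hij, ← (hdeg i j hij).2.1]
    exact C14.prod_normFactors (hdeg i j hij).2.2 (hcop i j hij)
  refine ⟨σ, inferInstance, inferInstance, fun r => r.1.1, fun r => (o r.1.2).1,
    fun r => (o r.1.2).2, ha, hs, ?_, fun r => r.2.1, deg, lead, hfact, ?_⟩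
  · intro r r' h
    have h' : r.1.1 = r'.1.1 := h
    apply Subtype.ext
    refine Prod.ext h' ?_
    by_contra hne
    have h1 : s((o r.1.2).1, (o r.1.2).2) ≠ s((o r'.1.2).1, (o r'.1.2).2) := by
      rw [ho, ho]; exact hne
    have h2 := hcop' _ _ _ _ r.2.1 r'.2.1 h1
    have h3 : r.1.1.1 ∣ e (o r'.1.2).1 - e (o r'.1.2).2 := by
      rw [h']; exact r'.2.2
    exact r.1.1.2.2.not_isUnit (h2.isUnit_of_dvd' r.2.2 h3)
  · intro i j hij
    by_contra hne
    push Not at hne
    have h1 := hfact i j hij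
    have h2 : (univ : Finset σ).filter (fun r => s((o r.1.2).1, (o r.1.2).2) = s(i, j)) = ∅ := by
      rw [Finset.filter_eq_empty_iff]
      intro r _
      exact hne r
    rw [h2, Finset.prod_empty, mul_one] at h1
    have h3 := (hdeg i j hij).1
    rw [h1, natDegree_C] at h3
    omega

end Pool.Agent.Helper54.PT
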