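import Pool.Agent.Helper13.TW.StC

/-!
# Module ACC of project TW (crosscuts exist)
-/

set_option autoImplicit false

namespace Pool.Agent.Helper10.TW

open Set Topology Pool.Agent.Helper13.TR Pool.Agent.Helper13.TW

private lemma arc_ends {S : Type} [TopologicalSpace S] {D : Set S} {p q : S} (h : IsArc D p q) :
    p ∈ D ∧ q ∈ D := by
  obtain ⟨γ, -, rfl⟩ := h
  exact ⟨⟨0, γ.source⟩, ⟨1, γ.target⟩⟩

private lemma access (hULC : StULC) (hINF : StINF) (hCLS : StCLS) (S : Type) [MetricSpace S]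
    [LocallyPathConnectedSpace S] [PathConnectedSpace S] (ω : S → Ch S 2 → ℤ) (V : Set S)
    (hG : GR S ω V) (J : Set S) (hJ : Ess ω V J) (p : S) (hp : p ∈ J) :
    ∃ x ∈ Ins ω J, JoinedIn (Ins ω J ∪ {p}) x p := by
  have step : ∀ (n : ℕ) (O : {O : Set S // IsOpen O ∧ p ∈ O}), ∃ O' : {O : Set S // IsOpen O ∧ p ∈ O},
      O'.1 ⊆ O.1 ∧ ∀ x ∈ O'.1 ∩ Ins ω J, ∀ y ∈ O'.1 ∩ Ins ω J,
        JoinedIn (Metric.ball p (1 / ((n : ℝ) + 1)) ∩ Ins ω J) x y := by
    intro n O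
    obtain ⟨O', h1, h2, h3, h4⟩ := hULC S ω V hG J hJ p hp (Metric.ball p (1 / ((n : ℝ) + 1)) ∩ O.1)
      (Metric.isOpen_ball.inter O.2.1) ⟨Metric.mem_ball_self (by positivity), O.2.2⟩
    refine ⟨⟨O', h1, h2⟩, fun z hz => (h3 hz).2, fun x hx y hy => ?_⟩
    exact (h4 x hx y hy).mono fun z hz => ⟨hz.1.1, hz.2⟩
  choose F hF1 hF2 using step
  let G : ℕ → {O : Set S // IsOpen O ∧ p ∈ O} := fun n =>
    Nat.rec ⟨univ, isOpen_univ, mem_univ p⟩ (fun n O => F n O) n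
  have hGs : ∀ n, G (n + 1) = F n (G n) := fun n => rfl
  have hne : ∀ n, ∃ x, x ∈ (G (n + 1)).1 ∩ Ins ω J := by
    intro n
    have hcl : p ∈ closure (Ins ω J) := (hCLS S ω V hG J hJ).1 hp
    obtain ⟨x, hx⟩ := mem_closure_iff.mp hcl (G (n + 1)).1 (G (n + 1)).2.1 (G (n + 1)).2.2
    exact ⟨x, hx⟩
  choose x hx using hne
  have hjoin : ∀ n : ℕ, JoinedIn (Metric.ball p (1 / ((n : ℝ) + 1)) ∩ Ins ω J) (x n) (x (n + 1)) := by
    intro n
    refine hF2 n (G n) (x n) (hx n) (x (n + 1)) ⟨?_, (hx (n + 1)).2⟩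
    have h1 := (hx (n + 1)).1
    rw [hGs (n + 1)] at h1
    exact hF1 (n + 1) (G (n + 1)) h1
  have hfin := hINF S p (fun n : ℕ => Metric.ball p (1 / ((n : ℝ) + 1)) ∩ Ins ω J) x hjoin (by
    intro O hO hpO
    obtain ⟨ε, hε, hb⟩ := Metric.isOpen_iff.mp hO p hpO
    obtain ⟨n₀, hn₀⟩ := exists_nat_one_div_lt hε
    refine ⟨n₀, fun n hn z hz => hb ?_⟩
    refine Metric.ball_subset_ball ?_ hz.1
    refine le_trans ?_ hn₀.le
    apply one_div_le_one_div_of_le (by positivity)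
    have : (n₀ : ℝ) ≤ n := by exact_mod_cast hn
    linarith)
  refine ⟨x 0, (hx 0).2, hfin.mono ?_⟩
  rintro z (hz | hz)
  · obtain ⟨n, hn⟩ := mem_iUnion.mp hz
    exact Or.inl hn.2
  · exact Or.inr hz

theorem hACC (hULC : StULC) (hINF : StINF) (hARX : StARX) (hTWO : StTWO) (hCLS : StCLS) : StACC := by
  intro S _ _ _ ω V hG J hJ p hp q hq hpq
  obtain ⟨x, hx, hxp⟩ := access hULC hINF hCLS S ω V hG J hJ p hp
  obtain ⟨y, hy, hyq⟩ := access hULC hINF hCLS S ω V hG J hJ q hq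
  have hxy : JoinedIn (Ins ω J) x y := (hTWO S ω V hG J hJ).1.2.joinedIn x hx y hy
  have h1 : JoinedIn (Ins ω J ∪ {p, q}) p q := by
    have a1 : JoinedIn (Ins ω J ∪ {p, q}) p x := hxp.symm.mono (by
      rintro z (hz | hz)
      · exact Or.inl hz
      · exact Or.inr (Or.inl hz))
    have a2 : JoinedIn (Ins ω J ∪ {p, q}) x y := hxy.mono subset_union_left
    have a3 : JoinedIn (Ins ω J ∪ {p, q}) y q := hyq.mono (by
      rintro z (hz | hz)
      · exact Or.inl hz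
      · exact Or.inr (Or.inr hz))
    exact (a1.trans a2).trans a3
  obtain ⟨D, hD, hA⟩ := hARX S (Ins ω J ∪ {p, q}) p q h1 hpq
  refine ⟨D, hA, ?_, ?_⟩
  · apply Subset.antisymm
    · rintro z ⟨hzD, hzJ⟩
      rcases hD hzD with h | h
      · exact absurd hzJ h.1
      · exact h
    · rintro z (rfl | hz)
      · exact ⟨(arc_ends hA).1, hp⟩
      · rw [mem_singleton_iff] at hz
        rw [hz]
        exact ⟨(arc_ends hA).2, hq⟩
  · rintro z ⟨hzD, hz⟩
    rcases hD hzD with h | h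
    · exact h
    · exact absurd h hz

end Pool.Agent.Helper10.TW
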