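import Pool.Agent.Helper13.TW.StB

/-!
# Module OPN2 of project TW (open subsets)
-/

set_option autoImplicit false

namespace Pool.Agent.Helper10.TW

open Set Topology Pool.Agent.Helper13.TR Pool.Agent.Helper13.TW

section aux

variable {S : Type} [TopologicalSpace S] (U : Set S)

/-- the inclusion -/
private def inc : C(↥U, S) := ⟨Subtype.val, continuous_subtype_val⟩

private lemma pre_compl (x : ↥U) : (inc U) ⁻¹' ({(x : S)}ᶜ : Set S) = ({x}ᶜ : Set ↥U) := by
  ext y
  simp [inc, Subtype.ext_iff]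

omit [TopologicalSpace S] in
private lemma pre_sing (x : ↥U) : (Subtype.val : ↥U → S) ⁻¹' ({(x : S)} : Set S) = ({x} : Set ↥U) := by
  ext y
  simp [Subtype.ext_iff]

end aux

theorem hOPN2 (hSM : StSM) (hSDA : StSDA) (hPSH : StPSH) (hMON : StMON) (hEXI : StEXI) : StOPN2 := by
  intro S _ _ ω U hW hU
  obtain ⟨p1, -, p3, -, p5, p6⟩ := hPSH ↥U S S (inc U) (ContinuousMap.id S)
  have hinj : Function.Injective (inc U) := Subtype.val_injective
  have hemb : IsEmbedding (inc U) := IsEmbedding.subtypeVal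
  have hbb : ∀ (n : ℕ) (c : Ch S (n + 2)), bd n (bd (n + 1) c) = 0 := (hSDA S).1
  -- cycles go to cycles
  have hC : ∀ (x : ↥U) (n : ℕ), ∀ c ∈ Cyc {x} (n + 1), push (inc U) (n + 1) c ∈ Cyc {(x : S)} (n + 1) := by
    intro x n c hc
    have hc' : bd n c ∈ cin ({x}ᶜ : Set ↥U) n := hc
    show bd n (push (inc U) (n + 1) c) ∈ cin ({(x : S)}ᶜ : Set S) n
    rw [p1]
    apply p3
    rw [pre_compl]
    exact hc'
  have hN : ∀ (x : ↥U) (n : ℕ), ∀ c ∈ Nul {x} n, push (inc U) n c ∈ Nul {(x : S)} n := by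
    intro x n c hc
    obtain ⟨ρ, hρ, b', ⟨b, rfl⟩, rfl⟩ := Submodule.mem_sup.mp hc
    refine Submodule.mem_sup.mpr ⟨push (inc U) n ρ, ?_, bd n (push (inc U) (n + 1) b), ⟨_, rfl⟩, ?_⟩
    · apply p3
      rw [pre_compl]
      exact hρ
    · rw [p1, map_add]
  have hE : ∀ (x : ↥U) (n : ℕ) (c : Ch ↥U n), push (inc U) n c ∈ Nul {(x : S)} n → c ∈ Nul {x} n := by
    intro x n c hc
    have h := hEXI S U {(x : S)} hU isClosed_singleton (singleton_subset_iff.mpr x.2) n c hc
    rwa [pre_sing] at h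
  refine ⟨?_, ?_, ?_, ?_, ?_, ?_⟩
  · intro x c hc
    exact hE x 1 c (hW.low x (hC x 0 c hc))
  · intro x e he e' he'
    show ω x (push (inc U) 2 (e + e')) = ω x (push (inc U) 2 e) + ω x (push (inc U) 2 e')
    rw [map_add]
    exact hW.add x _ (hC x 1 e he) _ (hC x 1 e' he')
  · intro x e he
    exact hW.nul x _ (hN x 2 e he)
  · intro x e he h0
    exact hE x 2 e (hW.ker x _ (hC x 1 e he) h0)
  · intro x
    obtain ⟨e, he, h1⟩ := hW.one (x : S)
    have heb : bd 1 e ∈ cin ({(x : S)}ᶜ : Set S) 1 := he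
    obtain ⟨mo, _, muniv, mbd, _, _⟩ := hMON S
    have hun : U ∪ ({(x : S)}ᶜ : Set S) = univ := by
      ext y
      simp only [mem_union, mem_compl_iff, mem_singleton_iff, mem_univ, iff_true]
      by_cases h : y = x
      · left
        rw [h]
        exact x.2
      · right
        exact h
    obtain ⟨e₁, he₁, e₂, he₂, f, -, hef⟩ := hSM S U ({(x : S)}ᶜ) hU isClosed_singleton.isOpen_compl 2 e
      (by rw [hun, muniv]; trivial) (by
        show bd 1 e ∈ cin U 1 ⊔ cin ({(x : S)}ᶜ : Set S) 1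
        exact Submodule.mem_sup_right heb)
    have hrange : (inc U) '' (univ : Set ↥U) = U := by
      rw [image_univ]
      exact Subtype.range_val
    obtain ⟨e', -, hpe⟩ := p5 hemb univ 2 e₁ (by rw [hrange]; exact he₁)
    have hb2 : bd 1 e₂ ∈ cin ({(x : S)}ᶜ : Set S) 1 := mbd _ 1 e₂ he₂
    have hb1 : bd 1 e₁ = bd 1 e - bd 1 e₂ := by
      have := congrArg (bd 1) hef
      rw [map_add, map_add, hbb, add_zero] at this
      rw [this]
      abel
    have hb1' : bd 1 e₁ ∈ cin ({(x : S)}ᶜ : Set S) 1 := by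
      rw [hb1]
      exact Submodule.sub_mem _ heb hb2
    refine ⟨e', ?_, ?_⟩
    · show bd 1 e' ∈ cin ({x}ᶜ : Set ↥U) 1
      rw [← pre_compl]
      apply p6 hinj
      rw [← p1, hpe]
      exact hb1'
    · show ω x (push (inc U) 2 e') = 1
      rw [hpe]
      have hr : e₂ + bd 2 f ∈ Nul {(x : S)} 2 := Submodule.mem_sup.mpr ⟨e₂, he₂, bd 2 f, ⟨f, rfl⟩, rfl⟩
      have hrC : e₂ + bd 2 f ∈ Cyc {(x : S)} 2 := by
        show bd 1 (e₂ + bd 2 f) ∈ cin ({(x : S)}ᶜ : Set S) 1
        rw [map_add, hbb, add_zero]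
        exact hb2
      have h3 := hW.add (x : S) e₁ hb1' (e₂ + bd 2 f) hrC
      rw [hW.nul (x : S) _ hr, ← add_assoc, ← hef, h1, add_zero] at h3
      exact h3.symm
  · intro e O hO hbe x y hxy
    have hO' : IsOpen ((inc U) '' O) := hU.isOpenMap_subtype_val O hO
    refine hW.loc (push (inc U) 2 e) ((inc U) '' O) hO' ?_ (x : S) (y : S) ?_
    · rw [p1]
      apply p3
      rw [preimage_compl, preimage_image_eq _ hinj]
      exact hbe
    · obtain ⟨γ, hγ⟩ := hxy
      refine ⟨γ.map continuous_subtype_val, fun t => ?_⟩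
      exact ⟨γ t, hγ t, rfl⟩

end Pool.Agent.Helper10.TW
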